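import Pool.Agent.Helper75.CR.St2

/-!
# Project CR (MP_265e56_al), module N7: plain and signed words
-/

set_option autoImplicit false

namespace Pool.Agent.Helper26.CR

open Pool.Agent.Helper75.CR Helper1.IM

/-- The substitution that exchanges the letters of the unpaired word `u` with plain letters. -/
noncomputable def sw (u : Wd) (i : ℕ) : Wd := by
  classical exact if (i, true) ∈ u then [(i, true)] else [(i, false)]

theorem sw_ne (u : Wd) (i : ℕ) : sw u i ≠ [] := by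
  unfold sw
  split <;> simp

theorem sw_true {u : Wd} {i : ℕ} (h : (i, true) ∈ u) : sw u i = [(i, true)] := by
  unfold sw
  rw [if_pos h]

theorem sw_false {u : Wd} {i : ℕ} (h : (i, true) ∉ u) : sw u i = [(i, false)] := by
  unfold sw
  rw [if_neg h]

theorem not_true {u : Wd} (hu : ¬ Prd u) {i : ℕ} (h : (i, false) ∈ u) : (i, true) ∉ u :=
  fun h' => hu ⟨i, h, h'⟩

/-- Forget the signs. -/
def fg (x : Wd) : Wo Unit := x.map (fun a => (a.1, ()))

theorem cn_fg (x : Wd) : cn (fg x) = ct x := by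
  ext i
  simp [cn, ct, fg]

theorem sb_sw (u : Wd) (hu : ¬ Prd u) : ∀ x : Wd, (∀ a ∈ x, a ∈ u) → sb (sw u) x = em (fg x) := by
  intro x
  induction x with
  | nil => intro _; rfl
  | cons a x ih =>
    intro h
    rw [sb_cons, ih (fun b hb => h b (by simp [hb]))]
    have ha := h a (by simp)
    rcases a with ⟨i, b⟩
    cases b
    · rw [if_neg (by simp), sw_false (not_true hu ha)]
      rfl
    · rw [if_pos rfl, sw_true ha]
      rfl

theorem sb_em (u : Wd) (hu : ¬ Prd u) : ∀ x : Wd, (∀ a ∈ x, a ∈ u) → sb (sw u) (em (fg x)) = x := by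
  intro x
  induction x with
  | nil => intro _; rfl
  | cons a x ih =>
    intro h
    have e1 : em (fg (a :: x)) = (a.1, false) :: em (fg x) := rfl
    rw [e1, sb_cons, ih (fun b hb => h b (by simp [hb]))]
    have ha := h a (by simp)
    rcases a with ⟨i, b⟩
    cases b
    · rw [if_neg (by simp), sw_false (not_true hu ha)]
      rfl
    · rw [if_neg (by simp), sw_true ha]
      rfl

theorem mem_sb_em (f : ℕ → Wd) (a : Lt) : ∀ w : Wo Unit, a ∈ sb f (em w) ↔ ∃ i ∈ cn w, a ∈ f i := by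
  intro w
  induction w with
  | nil => simp [Helper75.CR.em]
  | cons b w ih =>
    have e1 : em (b :: w) = (b.1, false) :: em w := rfl
    rw [e1, sb_cons, if_neg (by simp), List.mem_append, ih, cn_cons]
    constructor
    · rintro (h | ⟨i, hi, h⟩)
      · exact ⟨b.1, by simp, h⟩
      · exact ⟨i, by simp [hi], h⟩
    · rintro ⟨i, hi, h⟩
      rcases Finset.mem_insert.1 hi with rfl | hi
      · exact Or.inl h
      · exact Or.inr ⟨i, hi, h⟩

/-- **Module N7.** -/
theorem hN7 (hK : StK) (hL4 : StL4) (hN6 : StN6) : StN7 := by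
  intro θ hC hS α β hα hβ u w v hu hP huw hwv h1 h2
  obtain ⟨n1, n2, n3, -⟩ := hN6 θ hC hS
  have hB : Bs SU (cP (plP θ)) := hL4 Unit SU (plP θ) n1 n2 n3
  have hPM := hK Unit SU (cP (plP θ)) hB (cn (fg u)).card
  have hw : ∀ a ∈ w, a ∈ u := fun a ha => (huw a).2 ha
  have hv : ∀ a ∈ v, a ∈ u := fun a ha => (huw a).2 ((hwv a).2 ha)
  have ctw : ct u = ct w := by
    ext i
    rw [mem_ct, mem_ct]
    exact ⟨fun ⟨b, hb⟩ => ⟨b, (huw _).1 hb⟩, fun ⟨b, hb⟩ => ⟨b, (huw _).2 hb⟩⟩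
  have ctv : ct w = ct v := by
    ext i
    rw [mem_ct, mem_ct]
    exact ⟨fun ⟨b, hb⟩ => ⟨b, (hwv _).1 hb⟩, fun ⟨b, hb⟩ => ⟨b, (hwv _).2 hb⟩⟩
  have a1 : (cP (plP α)).r (fg u) (fg w) := by
    refine ⟨?_, by rw [cn_fg, cn_fg, ctw]⟩
    change α.r (em (fg u)) (em (fg w))
    rw [← sb_sw u hP u (fun a ha => ha), ← sb_sw u hP w hw]
    exact α.sub' _ (sw_ne u) h1
  have b1 : (cP (plP β)).r (fg w) (fg v) := by
    refine ⟨?_, by rw [cn_fg, cn_fg, ctv]⟩
    change β.r (em (fg w)) (em (fg v))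
    rw [← sb_sw u hP w hw, ← sb_sw u hP v hv]
    exact β.sub' _ (sw_ne u) h2
  have lα : LeP (cP (plP θ)) (cP (plP α)) := fun x y h => ⟨hα _ _ h.1, h.2⟩
  have lβ : LeP (cP (plP θ)) (cP (plP β)) := fun x y h => ⟨hβ _ _ h.1, h.2⟩
  obtain ⟨w1, c1, c2⟩ := hPM (cP (plP α)) (cP (plP β)) lα lβ (cP_cp _) (cP_cp _) (fg u) (fg w)
    (fg v) rfl a1 b1
  refine ⟨sb (sw u) (em w1), ?_, ?_, ?_⟩
  · intro a
    rw [mem_sb_em, ← c1.2, cn_fg]
    constructor
    · intro ha
      refine ⟨a.1, mem_ct.2 ⟨a.2, ha⟩, ?_⟩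
      rcases a with ⟨i, b⟩
      cases b
      · rw [sw_false (not_true hP ha)]; simp
      · rw [sw_true ha]; simp
    · rintro ⟨i, hi, ha⟩
      by_cases ht : (i, true) ∈ u
      · rw [sw_true ht] at ha
        rw [List.mem_singleton.1 ha]
        exact ht
      · rw [sw_false ht] at ha
        rw [List.mem_singleton.1 ha]
        obtain ⟨b, hb⟩ := mem_ct.1 hi
        cases b
        · exact hb
        · exact absurd hb ht
  · have h3 : β.r (sb (sw u) (em (fg u))) (sb (sw u) (em w1)) := β.sub' _ (sw_ne u) c1.1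
    rwa [sb_em u hP u (fun a ha => ha)] at h3
  · have h3 : α.r (sb (sw u) (em w1)) (sb (sw u) (em (fg v))) := α.sub' _ (sw_ne u) c2.1
    rwa [sb_em u hP v hv] at h3

end Pool.Agent.Helper26.CR
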